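import Pool.Agent.H44.HH.IDC
import Pool.Agent.H11.HH.GLH
import Pool.Agent.H46.HH.NRM

/-!
# MP_347b49_nt: module CNT (counting the ideals prime to the small primes)
-/

set_option autoImplicit false

open NumberField Complex Filter Topology MeasureTheory
open scoped ContDiff nonZeroDivisors

namespace Pool.Agent.H20.HH

open Pool.Agent.H33.HH Pool.Agent.H28.RC Pool.Agent.H37.CV Pool.Agent.H11.HH

/-! ### The smooth transition -/

/-- the derivatives of the smooth transition are bounded -/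
theorem st_bd : ∃ C : ℝ, 1 ≤ C ∧ ∀ j ≤ 4, ∀ x, |iteratedDeriv j Real.smoothTransition x| ≤ C := by
  have hone : ∀ j : ℕ, ∃ C : ℝ, ∀ x, |iteratedDeriv j Real.smoothTransition x| ≤ C := by
    intro j
    have hc : Continuous (iteratedDeriv j Real.smoothTransition) :=
      (Real.smoothTransition.contDiff (n := j)).continuous_iteratedDeriv j le_rfl
    obtain ⟨C, hC⟩ := isCompact_Icc.exists_bound_of_continuousOn (s := Set.Icc (-1 : ℝ) 2)
      hc.continuousOn
    refine ⟨C, fun x => ?_⟩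
    by_cases h1 : x < 0
    · have e : iteratedDeriv j Real.smoothTransition x = iteratedDeriv j (fun _ : ℝ => (0 : ℝ)) x := by
        refine (Filter.EventuallyEq.iteratedDeriv ?_ j).eq_of_nhds
        filter_upwards [Iio_mem_nhds h1] with y hy
        exact Real.smoothTransition.zero_of_nonpos (le_of_lt hy)
      have e' : iteratedDeriv j Real.smoothTransition (-1 / 2 : ℝ) =
          iteratedDeriv j (fun _ => (0 : ℝ)) (-1 / 2 : ℝ) := by
        refine (Filter.EventuallyEq.iteratedDeriv ?_ j).eq_of_nhds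
        filter_upwards [Iio_mem_nhds (show (-1 / 2 : ℝ) < 0 by norm_num)] with y hy
        exact Real.smoothTransition.zero_of_nonpos (le_of_lt hy)
      have e2 : iteratedDeriv j Real.smoothTransition x =
          iteratedDeriv j Real.smoothTransition (-1 / 2 : ℝ) := by
        rw [e, e', iteratedDeriv_const, iteratedDeriv_const]
      rw [e2]
      exact hC _ ⟨by norm_num, by norm_num⟩
    by_cases h2 : 1 < x
    · have e : iteratedDeriv j Real.smoothTransition x = iteratedDeriv j (fun _ => (1 : ℝ)) x := by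
        refine (Filter.EventuallyEq.iteratedDeriv ?_ j).eq_of_nhds
        filter_upwards [Ioi_mem_nhds h2] with y hy
        exact Real.smoothTransition.one_of_one_le (le_of_lt hy)
      have e' : iteratedDeriv j Real.smoothTransition (3 / 2 : ℝ) =
          iteratedDeriv j (fun _ => (1 : ℝ)) (3 / 2 : ℝ) := by
        refine (Filter.EventuallyEq.iteratedDeriv ?_ j).eq_of_nhds
        filter_upwards [Ioi_mem_nhds (show (1 : ℝ) < 3 / 2 by norm_num)] with y hy
        exact Real.smoothTransition.one_of_one_le (le_of_lt hy)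
      have e2 : iteratedDeriv j Real.smoothTransition x =
          iteratedDeriv j Real.smoothTransition (3 / 2 : ℝ) := by
        rw [e, e', iteratedDeriv_const, iteratedDeriv_const]
      rw [e2]
      exact hC _ ⟨by norm_num, by norm_num⟩
    · exact hC _ ⟨by linarith, by linarith⟩
  choose C hC using hone
  refine ⟨1 + ∑ j ∈ Finset.range 5, |C j|, ?_, fun j hj x => ?_⟩
  · have : 0 ≤ ∑ j ∈ Finset.range 5, |C j| := Finset.sum_nonneg fun _ _ => abs_nonneg _
    linarith
  · have h1 : |C j| ≤ ∑ j ∈ Finset.range 5, |C j| :=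
      Finset.single_le_sum (f := fun j => |C j|) (fun _ _ => abs_nonneg _)
        (Finset.mem_range.2 (by omega))
    have h2 := (hC j x).trans (le_abs_self _)
    linarith

/-- the cutoff -/
noncomputable def ct (c δ u : ℝ) : ℝ := Real.smoothTransition (δ⁻¹ * (c - u))

theorem ct_smooth (c δ : ℝ) : ContDiff ℝ ∞ (ct c δ) :=
  Real.smoothTransition.contDiff.comp (contDiff_const.mul (contDiff_const.sub contDiff_id))

theorem ct_zero {c δ : ℝ} (hδ : 0 < δ) {u : ℝ} (hu : c ≤ u) : ct c δ u = 0 :=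
  Real.smoothTransition.zero_of_nonpos
    (mul_nonpos_of_nonneg_of_nonpos (inv_pos.2 hδ).le (by linarith))

theorem ct_one {c δ : ℝ} (hδ : 0 < δ) {u : ℝ} (hu : u ≤ c - δ) : ct c δ u = 1 := by
  refine Real.smoothTransition.one_of_one_le ?_
  rw [inv_mul_eq_div, le_div_iff₀ hδ]
  linarith

theorem ct_nonneg (c δ u : ℝ) : 0 ≤ ct c δ u := Real.smoothTransition.nonneg _

theorem ct_le_one (c δ u : ℝ) : ct c δ u ≤ 1 := Real.smoothTransition.le_one _

theorem ct_der (c δ : ℝ) (hδ : 0 < δ) (hδ1 : δ ≤ 1) (C : ℝ)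
    (hC : ∀ j ≤ 4, ∀ x, |iteratedDeriv j Real.smoothTransition x| ≤ C) (j : ℕ) (hj : j ≤ 4)
    (u : ℝ) : |iteratedDeriv j (ct c δ) u| ≤ C * δ⁻¹ ^ 4 := by
  have e1 : ct c δ = fun u => (fun v => Real.smoothTransition (δ⁻¹ * v)) (c - u) := rfl
  have e2 : iteratedDeriv j (ct c δ) u =
      (-1) ^ j * (δ⁻¹ ^ j * iteratedDeriv j Real.smoothTransition (δ⁻¹ * (c - u))) := by
    rw [e1, iteratedDeriv_comp_const_sub j (fun v => Real.smoothTransition (δ⁻¹ * v)) c,
      iteratedDeriv_comp_const_mul (Real.smoothTransition.contDiff (n := j))]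
    simp
  have hinv : 1 ≤ δ⁻¹ := (one_le_inv₀ hδ).2 hδ1
  rw [e2, abs_mul, abs_mul, abs_pow, abs_pow, abs_neg, abs_one, one_pow, one_mul,
    abs_of_pos (inv_pos.2 hδ), mul_comm C]
  exact mul_le_mul (pow_le_pow_right₀ hinv hj) (hC j hj _) (abs_nonneg _) (by positivity)

theorem ct_int (c δ : ℝ) (hδ : 0 < δ) (hc : δ ≤ c) :
    c - δ ≤ ∫ u in Set.Ioi (0 : ℝ), ct c δ u ∧ ∫ u in Set.Ioi (0 : ℝ), ct c δ u ≤ c := by
  have hI : ∀ a : ℝ, 0 ≤ a → ∫ u in Set.Ioi (0 : ℝ), (Set.Iic a).indicator (fun _ => (1 : ℝ)) u =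
      a := by
    intro a ha
    rw [setIntegral_indicator measurableSet_Iic, Set.Ioi_inter_Iic, setIntegral_const,
      Real.volume_real_Ioc_of_le ha]
    simp
  have hi : ∀ a : ℝ, 0 ≤ a → IntegrableOn ((Set.Iic a).indicator (fun _ => (1 : ℝ)))
      (Set.Ioi (0 : ℝ)) := by
    intro a ha
    rw [IntegrableOn, integrable_indicator_iff measurableSet_Iic, IntegrableOn,
      Measure.restrict_restrict measurableSet_Iic, Set.inter_comm, Set.Ioi_inter_Iic]
    exact integrableOn_const (by simp)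
  have hle : ∀ u, ct c δ u ≤ (Set.Iic c).indicator (fun _ => (1 : ℝ)) u := by
    intro u
    by_cases h : u ≤ c
    · rw [Set.indicator_of_mem (show u ∈ Set.Iic c from h)]
      exact ct_le_one _ _ _
    · rw [Set.indicator_of_notMem (show u ∉ Set.Iic c from h), ct_zero hδ (not_le.1 h).le]
  have hge : ∀ u, (Set.Iic (c - δ)).indicator (fun _ => (1 : ℝ)) u ≤ ct c δ u := by
    intro u
    by_cases h : u ≤ c - δ
    · rw [Set.indicator_of_mem (show u ∈ Set.Iic (c - δ) from h), ct_one hδ h]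
    · rw [Set.indicator_of_notMem (show u ∉ Set.Iic (c - δ) from h)]
      exact ct_nonneg _ _ _
  have hct : IntegrableOn (ct c δ) (Set.Ioi 0) := by
    refine Integrable.mono' (hi c (by linarith)) (ct_smooth c δ).continuous.aestronglyMeasurable
      (Eventually.of_forall fun u => ?_)
    rw [Real.norm_eq_abs, abs_of_nonneg (ct_nonneg _ _ _)]
    exact hle u
  refine ⟨?_, ?_⟩
  · rw [← hI (c - δ) (by linarith)]
    exact integral_mono (hi _ (by linarith)) hct hge
  · nth_rewrite 2 [← hI c (by linarith)]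
    exact integral_mono hct (hi _ (by linarith)) hle

/-! ### Smooth sums -/

theorem smooth_sum (h1 : T_IDS) (h2 : T_IDC) (K : Type) [Field K] [NumberField K] [IQ K] (P : ℝ) :
    ∃ C : ℝ, 0 ≤ C ∧ ∀ (f : ℝ → ℝ) (M T : ℝ), ContDiff ℝ ∞ f → (∀ u, 2 ≤ u → f u = 0) →
    (∀ j ≤ 4, ∀ u, |iteratedDeriv j f u| ≤ M) → 1 ≤ T → |f 0| ≤ 1 →
    |sumC (K := K) P (fun n => f (nm n / T)) - rk K P * T * (∫ u in Set.Ioi (0 : ℝ), f u)| ≤
      C * M * T⁻¹ + C := by
  have hT' : ∀ T : ℝ, T ^ (1 - ((4 : ℕ) : ℝ) / 2) = T⁻¹ := by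
    intro T
    rw [← Real.rpow_neg_one]
    norm_num
  by_cases hS : (SP K P).Nonempty
  · obtain ⟨C, hC, h⟩ := h2 K P 2 4 hS (by norm_num) (by norm_num)
    refine ⟨C, hC, fun f M T hf h0 hd hT _ => ?_⟩
    have := h f M T hf h0 (fun j hj u _ => hd j hj u) hT
    rw [hT'] at this
    linarith
  · obtain ⟨C, hC, h⟩ := h1 K 4 2 (by norm_num) (by norm_num)
    have hw : 0 < wu K := (Pool.Agent.H46.HH.pf_NRM K).2.1
    have hh : 0 ≤ hc K := by
      unfold hc
      positivity
    have hq : 0 ≤ hc K / wu K := by positivity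
    refine ⟨C + hc K / wu K, by positivity, fun f M T hf h0 hd hT hf0 => ?_⟩
    have hS0 : SP K P = ∅ := Finset.not_nonempty_iff_eq_empty.1 hS
    have hrk : rk K P = rh K := by
      unfold rk
      rw [hS0]
      simp
    have hsum : sumC (K := K) P (fun n => f (nm n / T)) = ∑' l : NI K, f (nm l.1 / T) := by
      unfold sumC
      refine tsum_congr fun I => ?_
      rw [if_pos]
      intro p _
      by_contra hp
      have : p ∈ SP K P := (Pool.Agent.H44.HH.mem_SP P p).2 (not_lt.1 hp)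
      rw [hS0] at this
      exact absurd this (Finset.notMem_empty p)
    have := h f M T hf h0 (fun j hj u _ => hd j hj u) hT
    rw [hT'] at this
    rw [hsum, hrk]
    have hM : 0 ≤ M := (abs_nonneg _).trans (hd 0 (by norm_num) 0)
    have hTi : 0 ≤ T⁻¹ := by positivity
    have h3 : |hc K / wu K * f 0| ≤ hc K / wu K := by
      rw [abs_mul, abs_of_nonneg hq]
      exact mul_le_of_le_one_right hq hf0
    have h4 := abs_sub_abs_le_abs_sub (∑' l : NI K, f (nm l.1 / T) -
      rh K * T * (∫ u in Set.Ioi (0 : ℝ), f u)) (-(hc K / wu K * f 0))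
    rw [sub_neg_eq_add, abs_neg] at h4
    have h5 : 0 ≤ hc K / wu K * (M * T⁻¹) := by positivity
    have h6 : (C + hc K / wu K) * M * T⁻¹ = C * M * T⁻¹ + hc K / wu K * (M * T⁻¹) := by ring
    rw [h6]
    linarith

variable {K : Type} [Field K] [NumberField K]

theorem tsum_fin (P : ℝ) (f : ℝ → ℝ) (T b : ℝ) (hT : 0 < T) (h0 : ∀ u, b ≤ u → f u = 0) :
    sumC (K := K) P (fun n => f (nm n / T)) =
      ∑ I ∈ (fin_le K P (b * T)).toFinset, f (nm I / T) := by
  classical
  unfold sumC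
  rw [tsum_eq_sum (s := (Pool.Agent.H44.HH.fin_NI (K := K) (b * T)).toFinset)]
  · rw [← Finset.sum_filter]
    refine Finset.sum_bij (fun I _ => I.1) ?_ ?_ ?_ ?_
    · intro I hI
      rw [Finset.mem_filter, Set.Finite.mem_toFinset] at hI
      rw [Set.Finite.mem_toFinset]
      exact ⟨I.2, hI.2, hI.1⟩
    · intro I _ J _ h
      exact Subtype.ext h
    · intro I hI
      rw [Set.Finite.mem_toFinset] at hI
      refine ⟨⟨I, hI.1⟩, ?_, rfl⟩
      rw [Finset.mem_filter, Set.Finite.mem_toFinset]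
      exact ⟨hI.2.2, hI.2.1⟩
    · intro I _
      rfl
  · intro I hI
    rw [Set.Finite.mem_toFinset] at hI
    have : b * T < nm I.1 := not_le.1 hI
    split_ifs
    · exact h0 _ ((le_div_iff₀ hT).2 this.le)
    · rfl

theorem pf_CNT (h1 : T_IDS) (h2 : T_IDC) : T_CNT := by
  intro K _ _ _ P
  obtain ⟨C0, hC0, hC0b⟩ := st_bd
  obtain ⟨C, hC, hs⟩ := smooth_sum h1 h2 K P
  have hr : 0 ≤ |rk K P| := abs_nonneg _
  refine ⟨C * C0 + C + |rk K P|, by positivity, fun x hx => ?_⟩
  have hx0 : 0 < x := by linarith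
  set δ : ℝ := x ^ (-(1 / 4) : ℝ) with hδ
  have hδ0 : 0 < δ := Real.rpow_pos_of_pos hx0 _
  have hδ1 : δ ≤ 1 := Real.rpow_le_one_of_one_le_of_nonpos hx (by norm_num)
  have hδ4 : δ⁻¹ ^ 4 = x := by
    rw [hδ, ← Real.rpow_neg hx0.le, ← Real.rpow_natCast, ← Real.rpow_mul hx0.le]
    norm_num
  have hδx : x * δ = x ^ (3 / 4 : ℝ) := by
    rw [hδ]
    nth_rewrite 1 [← Real.rpow_one x]
    rw [← Real.rpow_add hx0]
    norm_num
  have hx34 : 1 ≤ x ^ (3 / 4 : ℝ) := Real.one_le_rpow hx (by norm_num)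
  have key : ∀ c : ℝ, δ ≤ c → c ≤ 2 → 1 ≤ c → c ≤ 1 + δ →
      |sumC (K := K) P (fun n => ct c δ (nm n / x)) - rk K P * x| ≤
        (C * C0 + C + |rk K P|) * x ^ (3 / 4 : ℝ) := by
    intro c hc1 hc2 hc3 hc4
    have h := hs (ct c δ) (C0 * x) x (ct_smooth c δ) (fun u hu => ct_zero hδ0 (hc2.trans hu))
      (fun j hj u => by
        rw [← hδ4]
        exact ct_der c δ hδ0 hδ1 C0 hC0b j hj u) hx
      (by rw [abs_of_nonneg (ct_nonneg _ _ _)]; exact ct_le_one _ _ _)
    obtain ⟨i1, i2⟩ := ct_int c δ hδ0 hc1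
    have e1 : C * (C0 * x) * x⁻¹ = C * C0 := by field_simp
    rw [e1] at h
    have h3 : |rk K P * x * (∫ u in Set.Ioi (0 : ℝ), ct c δ u) - rk K P * x| ≤
        |rk K P| * x ^ (3 / 4 : ℝ) := by
      have e2 : rk K P * x * (∫ u in Set.Ioi (0 : ℝ), ct c δ u) - rk K P * x =
          rk K P * (x * ((∫ u in Set.Ioi (0 : ℝ), ct c δ u) - 1)) := by ring
      rw [e2, abs_mul, abs_mul, abs_of_pos hx0, ← hδx]
      refine mul_le_mul_of_nonneg_left (mul_le_mul_of_nonneg_left ?_ hx0.le) hr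
      rw [abs_le]
      constructor <;> linarith
    have h4 := abs_sub_le (sumC (K := K) P (fun n => ct c δ (nm n / x)))
      (rk K P * x * (∫ u in Set.Ioi (0 : ℝ), ct c δ u)) (rk K P * x)
    have h5 : C * C0 + C ≤ (C * C0 + C) * x ^ (3 / 4 : ℝ) :=
      le_mul_of_one_le_right (by positivity) hx34
    linarith
  have hcard : ({I : Ideal (𝓞 K) | I ≠ ⊥ ∧ Cp P I ∧ nm I ≤ x}.ncard : ℝ) =
      ∑ I ∈ (fin_le K P x).toFinset, (1 : ℝ) := by
    rw [Finset.sum_const, nsmul_eq_mul, mul_one, Set.ncard_eq_toFinset_card _ (fin_le K P x)]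
  rw [hcard, abs_le]
  have up := key (1 + δ) (by linarith) (by linarith) (by linarith) le_rfl
  have lo := key 1 hδ1 (by norm_num) le_rfl (by linarith)
  rw [abs_le] at up lo
  have hup : ∑ I ∈ (fin_le K P x).toFinset, (1 : ℝ) ≤
      sumC (K := K) P (fun n => ct (1 + δ) δ (nm n / x)) := by
    rw [tsum_fin P (ct (1 + δ) δ) x 2 hx0 fun u hu => ct_zero hδ0 (by linarith)]
    calc ∑ I ∈ (fin_le K P x).toFinset, (1 : ℝ) =
          ∑ I ∈ (fin_le K P x).toFinset, ct (1 + δ) δ (nm I / x) := by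
          refine Finset.sum_congr rfl fun I hI => ?_
          rw [Set.Finite.mem_toFinset] at hI
          rw [ct_one hδ0]
          have : nm I / x ≤ 1 := (div_le_one hx0).2 hI.2.2
          linarith
      _ ≤ _ := by
          refine Finset.sum_le_sum_of_subset_of_nonneg ?_ fun _ _ _ => ct_nonneg _ _ _
          intro I hI
          rw [Set.Finite.mem_toFinset] at hI ⊢
          exact ⟨hI.1, hI.2.1, hI.2.2.trans (by linarith)⟩
  have hlo : sumC (K := K) P (fun n => ct 1 δ (nm n / x)) ≤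
      ∑ I ∈ (fin_le K P x).toFinset, (1 : ℝ) := by
    rw [tsum_fin P (ct 1 δ) x 1 hx0 fun u hu => ct_zero hδ0 hu, one_mul]
    exact Finset.sum_le_sum fun I _ => ct_le_one _ _ _
  constructor <;> linarith

end Pool.Agent.H20.HH
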