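import Pool.Agent.H33.HH.TC

/-!
# MP_347b49_nt: module NSM (harmonic sums), the analysis
-/

set_option autoImplicit false

open NumberField Complex Filter Topology MeasureTheory
open scoped ContDiff nonZeroDivisors

namespace Pool.Agent.H20.HH

open Pool.Agent.H33.HH Pool.Agent.H28.RC Pool.Agent.H37.CV

/-- integrals over `(1, ∞)` of functions with a transition at `T` -/
theorem int_bd (φ : ℝ → ℝ) (c T : ℝ) (hc : 0 ≤ c) (hT : 1 ≤ T)
    (hm : AEStronglyMeasurable φ (volume.restrict (Set.Ioi 1)))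
    (h1 : ∀ t, 1 < t → t ≤ T → |φ t| ≤ c * (t ^ (-(5 / 4) : ℝ) * (t / T) ^ (1 / 2 : ℝ)))
    (h2 : ∀ t, T < t → |φ t| ≤ c * t ^ (-(5 / 4) : ℝ)) :
    IntegrableOn φ (Set.Ioi 1) ∧ |∫ t in Set.Ioi (1 : ℝ), φ t| ≤ 8 * c * T ^ (-(1 / 4) : ℝ) := by
  have hT0 : 0 < T := by linarith
  have hU : Set.Ioi (1 : ℝ) = Set.Ioc 1 T ∪ Set.Ioi T := (Set.Ioc_union_Ioi_eq_Ioi hT).symm
  have hd : Disjoint (Set.Ioc 1 T) (Set.Ioi T) := by
    rw [Set.disjoint_left]
    intro t h h'
    exact absurd h.2 (not_le.2 h')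
  have e1 : ∀ t, 0 < t → c * (t ^ (-(5 / 4) : ℝ) * (t / T) ^ (1 / 2 : ℝ)) =
      (c * T ^ (-(1 / 2) : ℝ)) * t ^ (-(3 / 4) : ℝ) := by
    intro t ht
    rw [Real.div_rpow ht.le hT0.le, Real.rpow_neg hT0.le]
    have : t ^ (-(3 / 4) : ℝ) = t ^ (-(5 / 4) : ℝ) * t ^ (1 / 2 : ℝ) := by
      rw [← Real.rpow_add ht]
      norm_num
    rw [this]
    ring
  have hi1 : IntegrableOn (fun t : ℝ => (c * T ^ (-(1 / 2) : ℝ)) * t ^ (-(3 / 4) : ℝ))
      (Set.Ioc 1 T) := by
    refine IntegrableOn.mono_set (t := Set.Icc 1 T) ?_ Set.Ioc_subset_Icc_self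
    refine ContinuousOn.integrableOn_Icc (ContinuousOn.mul continuousOn_const ?_)
    refine ContinuousOn.rpow_const continuousOn_id fun t ht => Or.inl ?_
    have := ht.1
    intro h
    have h' : t = 0 := h
    linarith
  have hi2 : IntegrableOn (fun t : ℝ => c * t ^ (-(5 / 4) : ℝ)) (Set.Ioi T) :=
    (integrableOn_Ioi_rpow_of_lt (by norm_num) hT0).const_mul c
  have ha1 : ∀ᵐ t ∂(volume.restrict (Set.Ioc 1 T)), ‖φ t‖ ≤
      (c * T ^ (-(1 / 2) : ℝ)) * t ^ (-(3 / 4) : ℝ) := by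
    refine (ae_restrict_iff' measurableSet_Ioc).2 (Eventually.of_forall fun t ht => ?_)
    rw [← e1 t (by linarith [ht.1])]
    exact h1 t ht.1 ht.2
  have ha2 : ∀ᵐ t ∂(volume.restrict (Set.Ioi T)), ‖φ t‖ ≤ c * t ^ (-(5 / 4) : ℝ) :=
    (ae_restrict_iff' measurableSet_Ioi).2 (Eventually.of_forall fun t ht => h2 t ht)
  have hm1 : AEStronglyMeasurable φ (volume.restrict (Set.Ioc 1 T)) :=
    hm.mono_measure (Measure.restrict_mono Set.Ioc_subset_Ioi_self le_rfl)
  have hm2 : AEStronglyMeasurable φ (volume.restrict (Set.Ioi T)) :=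
    hm.mono_measure (Measure.restrict_mono (Set.Ioi_subset_Ioi hT) le_rfl)
  have hI1 : IntegrableOn φ (Set.Ioc 1 T) := Integrable.mono' hi1 hm1 ha1
  have hI2 : IntegrableOn φ (Set.Ioi T) := Integrable.mono' hi2 hm2 ha2
  refine ⟨by rw [hU]; exact hI1.union hI2, ?_⟩
  rw [hU, setIntegral_union hd measurableSet_Ioi hI1 hI2]
  have hb1 : |∫ t in Set.Ioc 1 T, φ t| ≤ 4 * c * T ^ (-(1 / 4) : ℝ) := by
    calc |∫ t in Set.Ioc 1 T, φ t| ≤
        ∫ t in Set.Ioc 1 T, (c * T ^ (-(1 / 2) : ℝ)) * t ^ (-(3 / 4) : ℝ) := by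
          rw [← Real.norm_eq_abs]
          exact norm_integral_le_of_norm_le hi1 ha1
      _ = (c * T ^ (-(1 / 2) : ℝ)) * ((T ^ (1 / 4 : ℝ) - 1) / (1 / 4)) := by
          rw [integral_const_mul, ← intervalIntegral.integral_of_le hT,
            integral_rpow (Or.inl (by norm_num))]
          norm_num
      _ ≤ (c * T ^ (-(1 / 2) : ℝ)) * (4 * T ^ (1 / 4 : ℝ)) := by
          refine mul_le_mul_of_nonneg_left ?_ (by positivity)
          rw [div_le_iff₀ (by norm_num)]
          linarith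
      _ = 4 * c * T ^ (-(1 / 4) : ℝ) := by
          have : T ^ (-(1 / 4) : ℝ) = T ^ (-(1 / 2) : ℝ) * T ^ (1 / 4 : ℝ) := by
            rw [← Real.rpow_add hT0]
            norm_num
          rw [this]
          ring
  have hb2 : |∫ t in Set.Ioi T, φ t| ≤ 4 * c * T ^ (-(1 / 4) : ℝ) := by
    calc |∫ t in Set.Ioi T, φ t| ≤ ∫ t in Set.Ioi T, c * t ^ (-(5 / 4) : ℝ) := by
          rw [← Real.norm_eq_abs]
          exact norm_integral_le_of_norm_le hi2 ha2
      _ = 4 * c * T ^ (-(1 / 4) : ℝ) := by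
          rw [integral_const_mul, integral_Ioi_rpow_of_lt (by norm_num) hT0]
          norm_num
          ring
  refine (abs_add_le _ _).trans ?_
  linarith

section Sl

variable {f f' : ℝ → ℝ} {T A : ℝ}

theorem sl_one_le (h : Sl T A f f') (hT : 0 < T) : 1 ≤ 2 * A := by
  have h1 := (h.n1 T hT le_rfl).1
  have h2 := (h.n2 T le_rfl).1
  rw [div_self hT.ne', Real.one_rpow, mul_one] at h1 h2
  have h3 := abs_le.1 h1
  have h4 := abs_le.1 h2
  linarith [h3.1, h4.2]

/-- the difference to `1` -/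
theorem sl_sub_one (h : Sl T A f f') (hT : 0 < T) (hA : 0 ≤ A) (t : ℝ) (ht : T < t) :
    |f t - 1| ≤ 3 * A := by
  have h1 := sl_one_le h hT
  have h2 := (h.n2 t ht.le).1
  have h3 : A * (t / T) ^ (-(1 / 2) : ℝ) ≤ A * 1 := by
    refine mul_le_mul_of_nonneg_left ?_ hA
    exact Real.rpow_le_one_of_one_le_of_nonpos ((one_le_div hT).2 ht.le) (by norm_num)
  have h4 : |f t - 1| ≤ |f t| + |(1 : ℝ)| := abs_sub _ _
  rw [abs_one] at h4
  linarith

theorem sl_der_le (h : Sl T A f f') (hT : 0 < T) (hA : 0 ≤ A) (t : ℝ) (ht : T < t) :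
    |f' t| ≤ A / t := by
  have ht0 : 0 < t := hT.trans ht
  refine (h.n2 t ht.le).2.trans ?_
  have : (t / T) ^ (-(1 / 2) : ℝ) ≤ 1 :=
    Real.rpow_le_one_of_one_le_of_nonpos ((one_le_div hT).2 ht.le) (by norm_num)
  calc A / t * (t / T) ^ (-(1 / 2) : ℝ) ≤ A / t * 1 :=
        mul_le_mul_of_nonneg_left this (by positivity)
    _ = A / t := mul_one _

/-- the size -/
theorem sl_size (h : Sl T A f f') (hT : 0 < T) (hA : 0 ≤ A) (t : ℝ) (ht : 0 < t) :
    |f t| ≤ 3 * A * (T ^ (1 / 2 : ℝ) * t ^ (-(1 / 2) : ℝ)) := by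
  have e : T ^ (1 / 2 : ℝ) * t ^ (-(1 / 2) : ℝ) = (t / T) ^ (-(1 / 2) : ℝ) := by
    rw [Real.div_rpow ht.le hT.le, Real.rpow_neg hT.le, div_inv_eq_mul]
    ring
  rw [e]
  rcases le_or_gt t T with htT | htT
  · have h1 := (h.n1 t ht htT).1
    have h2 := sl_one_le h hT
    have h3 : (t / T) ^ (1 / 2 : ℝ) ≤ 1 :=
      Real.rpow_le_one (by positivity) ((div_le_one hT).2 htT) (by norm_num)
    have h4 : 1 ≤ (t / T) ^ (-(1 / 2) : ℝ) :=
      Real.one_le_rpow_of_pos_of_le_one_of_nonpos (by positivity) ((div_le_one hT).2 htT)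
        (by norm_num)
    have h5 : |f t| ≤ 3 * A := by
      have h6 : |f t| ≤ |f t - 1| + |(1 : ℝ)| := by
        have := abs_add_le (f t - 1) 1
        rwa [sub_add_cancel] at this
      rw [abs_one] at h6
      have : A * (t / T) ^ (1 / 2 : ℝ) ≤ A * 1 := mul_le_mul_of_nonneg_left h3 hA
      linarith
    calc |f t| ≤ 3 * A * 1 := by linarith
      _ ≤ 3 * A * (t / T) ^ (-(1 / 2) : ℝ) := mul_le_mul_of_nonneg_left h4 (by positivity)
  · refine (h.n2 t htT.le).1.trans ?_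
    refine mul_le_mul_of_nonneg_right ?_ (by positivity)
    linarith

theorem sl_cont (h : Sl T A f f') : ContinuousOn f (Set.Ioi 0) := fun t ht =>
  (h.der t ht).continuousAt.continuousWithinAt

/-- the error terms -/
theorem sl_err (h : Sl T A f f') (hT : 1 ≤ T) (hA : 0 ≤ A) (E : ℝ → ℝ) (hE : Measurable E)
    (C : ℝ) (hC : 0 ≤ C) (hb : ∀ t, 1 ≤ t → |E t| ≤ C * t ^ (3 / 4 : ℝ)) :
    (IntegrableOn (fun t => (f t - 1) * E t / t ^ 2) (Set.Ioi 1) ∧
      |∫ t in Set.Ioi (1 : ℝ), (f t - 1) * E t / t ^ 2| ≤ 8 * (3 * A * C) * T ^ (-(1 / 4) : ℝ)) ∧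
    (IntegrableOn (fun t => f' t * E t / t) (Set.Ioi 1) ∧
      |∫ t in Set.Ioi (1 : ℝ), f' t * E t / t| ≤ 8 * (3 * A * C) * T ^ (-(1 / 4) : ℝ)) := by
  have hT0 : 0 < T := by linarith
  have hsub : Set.Ioi (1 : ℝ) ⊆ Set.Ioi 0 := Set.Ioi_subset_Ioi zero_le_one
  have e0 : ∀ t : ℝ, 0 < t → t ^ (3 / 4 : ℝ) / t ^ 2 = t ^ (-(5 / 4) : ℝ) := by
    intro t ht
    rw [← Real.rpow_natCast t 2, ← Real.rpow_sub ht]
    norm_num
  have hq : AEStronglyMeasurable (fun t : ℝ => E t / t ^ 2) (volume.restrict (Set.Ioi 1)) :=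
    (hE.div (measurable_id.pow_const 2)).aestronglyMeasurable
  have hq' : AEStronglyMeasurable (fun t : ℝ => E t / t) (volume.restrict (Set.Ioi 1)) :=
    (hE.div measurable_id).aestronglyMeasurable
  have hf : AEStronglyMeasurable (fun t => f t - 1) (volume.restrict (Set.Ioi 1)) :=
    (((sl_cont h).mono hsub).sub continuousOn_const).aestronglyMeasurable measurableSet_Ioi
  have hf' : AEStronglyMeasurable f' (volume.restrict (Set.Ioi 1)) :=
    (h.con.mono hsub).aestronglyMeasurable measurableSet_Ioi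
  have hbt : ∀ t, 1 < t → |E t| / t ^ 2 ≤ C * t ^ (-(5 / 4) : ℝ) := by
    intro t ht
    have ht0 : 0 < t := by linarith
    calc |E t| / t ^ 2 ≤ C * t ^ (3 / 4 : ℝ) / t ^ 2 :=
          div_le_div_of_nonneg_right (hb t ht.le) (by positivity)
      _ = C * t ^ (-(5 / 4) : ℝ) := by rw [mul_div_assoc, e0 t ht0]
  constructor
  · refine int_bd _ (3 * A * C) T (by positivity) hT ?_ ?_ ?_
    · refine (hf.mul hq).congr (Eventually.of_forall fun t => ?_)
      simp only [Pi.mul_apply]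
      ring
    · intro t ht htT
      have ht0 : 0 < t := by linarith
      have h1 := (h.n1 t ht0 htT).1
      calc |(f t - 1) * E t / t ^ 2| = |f t - 1| * (|E t| / t ^ 2) := by
            rw [abs_div, abs_mul, abs_of_pos (by positivity : 0 < t ^ 2)]
            ring
        _ ≤ (A * (t / T) ^ (1 / 2 : ℝ)) * (C * t ^ (-(5 / 4) : ℝ)) :=
            mul_le_mul h1 (hbt t ht) (by positivity) (by positivity)
        _ ≤ 3 * A * C * (t ^ (-(5 / 4) : ℝ) * (t / T) ^ (1 / 2 : ℝ)) := by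
            have : 0 ≤ A * C * (t ^ (-(5 / 4) : ℝ) * (t / T) ^ (1 / 2 : ℝ)) := by positivity
            linarith
    · intro t ht
      have ht1 : 1 < t := by linarith
      have ht0 : 0 < t := by linarith
      calc |(f t - 1) * E t / t ^ 2| = |f t - 1| * (|E t| / t ^ 2) := by
            rw [abs_div, abs_mul, abs_of_pos (by positivity : 0 < t ^ 2)]
            ring
        _ ≤ (3 * A) * (C * t ^ (-(5 / 4) : ℝ)) :=
            mul_le_mul (sl_sub_one h hT0 hA t ht) (hbt t ht1) (by positivity) (by positivity)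
        _ = 3 * A * C * t ^ (-(5 / 4) : ℝ) := by ring
  · refine int_bd _ (3 * A * C) T (by positivity) hT ?_ ?_ ?_
    · refine (hf'.mul hq').congr (Eventually.of_forall fun t => ?_)
      simp only [Pi.mul_apply]
      ring
    · intro t ht htT
      have ht0 : 0 < t := by linarith
      have h1 := (h.n1 t ht0 htT).2
      calc |f' t * E t / t| = |f' t| * t * (|E t| / t ^ 2) := by
            rw [abs_div, abs_mul, abs_of_pos ht0]
            field_simp
        _ ≤ (A * (t / T) ^ (1 / 2 : ℝ)) * (C * t ^ (-(5 / 4) : ℝ)) := by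
            refine mul_le_mul ?_ (hbt t ht) (by positivity) (by positivity)
            calc |f' t| * t ≤ A / t * (t / T) ^ (1 / 2 : ℝ) * t :=
                  mul_le_mul_of_nonneg_right h1 ht0.le
              _ = A * (t / T) ^ (1 / 2 : ℝ) := by
                  field_simp
        _ ≤ 3 * A * C * (t ^ (-(5 / 4) : ℝ) * (t / T) ^ (1 / 2 : ℝ)) := by
            have : 0 ≤ A * C * (t ^ (-(5 / 4) : ℝ) * (t / T) ^ (1 / 2 : ℝ)) := by positivity
            linarith
    · intro t ht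
      have ht1 : 1 < t := by linarith
      have ht0 : 0 < t := by linarith
      calc |f' t * E t / t| = |f' t| * t * (|E t| / t ^ 2) := by
            rw [abs_div, abs_mul, abs_of_pos ht0]
            field_simp
        _ ≤ A * (C * t ^ (-(5 / 4) : ℝ)) := by
            refine mul_le_mul ?_ (hbt t ht1) (by positivity) (by positivity)
            calc |f' t| * t ≤ A / t * t :=
                  mul_le_mul_of_nonneg_right (sl_der_le h hT0 hA t ht) ht0.le
              _ = A := by field_simp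
        _ ≤ 3 * A * C * t ^ (-(5 / 4) : ℝ) := by
            have : 0 ≤ A * C * t ^ (-(5 / 4) : ℝ) := by positivity
            linarith

/-- the integral of `f(t) / t` -/
theorem sl_int (h : Sl T A f f') (hT : 0 < T) (hA : 0 ≤ A) (a : ℝ) (ha : 0 < a) :
    IntegrableOn (fun t => f t / t) (Set.Ioi a) := by
  have hsub : Set.Ioi a ⊆ Set.Ioi 0 := Set.Ioi_subset_Ioi ha.le
  have hb : IntegrableOn (fun t : ℝ => 3 * A * T ^ (1 / 2 : ℝ) * t ^ (-(3 / 2) : ℝ))
      (Set.Ioi a) := (integrableOn_Ioi_rpow_of_lt (by norm_num) ha).const_mul _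
  refine Integrable.mono' hb ?_ ?_
  · refine (((sl_cont h).mono hsub).div continuousOn_id fun t ht => ?_).aestronglyMeasurable
      measurableSet_Ioi
    exact (ha.trans ht).ne'
  · refine (ae_restrict_iff' measurableSet_Ioi).2 (Eventually.of_forall fun t ht => ?_)
    have ht0 : 0 < t := ha.trans ht
    rw [Real.norm_eq_abs, abs_div, abs_of_pos ht0, div_le_iff₀ ht0]
    refine (sl_size h hT hA t ht0).trans (le_of_eq ?_)
    have : t ^ (-(1 / 2) : ℝ) = t ^ (-(3 / 2) : ℝ) * t := by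
      nth_rewrite 3 [← Real.rpow_one t]
      rw [← Real.rpow_add ht0]
      norm_num
    rw [this]
    ring

/-- the integral of `(f(t) - 1) / t` near `0` -/
theorem sl_int0 (h : Sl T A f f') (hT : 0 < T) (hA : 0 ≤ A) (x : ℝ) (hx : 0 ≤ x) (hxT : x ≤ T) :
    IntegrableOn (fun t => (f t - 1) / t) (Set.Ioc 0 x) ∧
    |∫ t in Set.Ioc 0 x, (f t - 1) / t| ≤ 2 * A * (x / T) ^ (1 / 2 : ℝ) := by
  have hsub : Set.Ioc 0 x ⊆ Set.Ioi 0 := Set.Ioc_subset_Ioi_self
  have hb : IntegrableOn (fun t : ℝ => A * T ^ (-(1 / 2) : ℝ) * t ^ (-(1 / 2) : ℝ))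
      (Set.Ioc 0 x) := by
    refine Integrable.const_mul ?_ _
    have := intervalIntegral.intervalIntegrable_rpow' (a := 0) (b := x)
      (r := (-(1 / 2) : ℝ)) (by norm_num)
    rwa [intervalIntegrable_iff_integrableOn_Ioc_of_le hx] at this
  have ha : ∀ᵐ t ∂(volume.restrict (Set.Ioc 0 x)), ‖(f t - 1) / t‖ ≤
      A * T ^ (-(1 / 2) : ℝ) * t ^ (-(1 / 2) : ℝ) := by
    refine (ae_restrict_iff' measurableSet_Ioc).2 (Eventually.of_forall fun t ht => ?_)
    have ht0 : 0 < t := ht.1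
    rw [Real.norm_eq_abs, abs_div, abs_of_pos ht0, div_le_iff₀ ht0]
    refine (h.n1 t ht0 (ht.2.trans hxT)).1.trans (le_of_eq ?_)
    rw [Real.div_rpow ht0.le hT.le, Real.rpow_neg hT.le]
    have : t ^ (1 / 2 : ℝ) = t ^ (-(1 / 2) : ℝ) * t := by
      nth_rewrite 3 [← Real.rpow_one t]
      rw [← Real.rpow_add ht0]
      norm_num
    rw [this]
    ring
  refine ⟨Integrable.mono' hb ?_ ha, ?_⟩
  · refine ((((sl_cont h).mono hsub).sub continuousOn_const).div continuousOn_id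
      fun t ht => ?_).aestronglyMeasurable measurableSet_Ioc
    exact (ht.1).ne'
  · calc |∫ t in Set.Ioc 0 x, (f t - 1) / t| ≤
        ∫ t in Set.Ioc 0 x, A * T ^ (-(1 / 2) : ℝ) * t ^ (-(1 / 2) : ℝ) := by
          rw [← Real.norm_eq_abs]
          exact norm_integral_le_of_norm_le hb ha
      _ = A * T ^ (-(1 / 2) : ℝ) * (2 * x ^ (1 / 2 : ℝ)) := by
          have e : ∫ t in (0 : ℝ)..x, t ^ (-(1 / 2) : ℝ) = 2 * x ^ (1 / 2 : ℝ) := by
            rw [integral_rpow (Or.inl (by norm_num))]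
            norm_num
            ring
          rw [integral_const_mul, ← intervalIntegral.integral_of_le hx, e]
      _ = 2 * A * (x / T) ^ (1 / 2 : ℝ) := by
          rw [Real.div_rpow hx hT.le, Real.rpow_neg hT.le]
          ring

/-- the logarithmic mean -/
theorem sl_Lg (h : Sl T A f f') (hT : 1 ≤ T) (hA : 0 ≤ A) :
    ∫ t in Set.Ioi (1 : ℝ), f t / t =
      Real.log T + Lg (fun u => f (T * u)) - ∫ t in Set.Ioc (0 : ℝ) 1, (f t - 1) / t := by
  have hT0 : 0 < T := by linarith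
  have e1 : ∫ u in Set.Ioi (1 : ℝ), f (T * u) / u = ∫ t in Set.Ioi T, f t / t := by
    have h1 := integral_comp_mul_left_Ioi (fun t => f t / t) 1 hT0
    rw [mul_one, smul_eq_mul] at h1
    calc ∫ u in Set.Ioi (1 : ℝ), f (T * u) / u =
        ∫ u in Set.Ioi (1 : ℝ), T * (f (T * u) / (T * u)) := by
          refine setIntegral_congr_fun measurableSet_Ioi fun u hu => ?_
          have hu0 : (0 : ℝ) < u := lt_trans one_pos hu
          field_simp
      _ = ∫ t in Set.Ioi T, f t / t := by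
          rw [integral_const_mul, h1]
          field_simp
  have e2 : ∫ u in Set.Ioc (0 : ℝ) 1, (f (T * u) - 1) / u =
      ∫ t in Set.Ioc (0 : ℝ) T, (f t - 1) / t := by
    have h1 := intervalIntegral.integral_comp_mul_left (a := 0) (b := 1)
      (fun t => (f t - 1) / t) hT0.ne'
    rw [mul_one, mul_zero, smul_eq_mul, intervalIntegral.integral_of_le zero_le_one,
      intervalIntegral.integral_of_le hT0.le] at h1
    calc ∫ u in Set.Ioc (0 : ℝ) 1, (f (T * u) - 1) / u =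
        ∫ u in Set.Ioc (0 : ℝ) 1, T * ((f (T * u) - 1) / (T * u)) := by
          refine setIntegral_congr_fun measurableSet_Ioc fun u hu => ?_
          have hu0 : (0 : ℝ) < u := hu.1
          field_simp
      _ = ∫ t in Set.Ioc (0 : ℝ) T, (f t - 1) / t := by
          rw [integral_const_mul, h1]
          field_simp
  have e3 : ∫ t in Set.Ioc (0 : ℝ) T, (f t - 1) / t =
      (∫ t in Set.Ioc (0 : ℝ) 1, (f t - 1) / t) + ∫ t in Set.Ioc 1 T, (f t - 1) / t := by
    have hi := (sl_int0 h hT0 hA T hT0.le le_rfl).1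
    rw [← Set.Ioc_union_Ioc_eq_Ioc zero_le_one hT]
    rw [← Set.Ioc_union_Ioc_eq_Ioc zero_le_one hT] at hi
    refine setIntegral_union ?_ measurableSet_Ioc (hi.mono_set Set.subset_union_left)
      (hi.mono_set Set.subset_union_right)
    rw [Set.disjoint_left]
    intro t ht ht'
    exact absurd ht.2 (not_le.2 ht'.1)
  have hi1 := sl_int h hT0 hA 1 one_pos
  have hi2 : IntegrableOn (fun t : ℝ => t⁻¹) (Set.Ioc 1 T) := by
    refine IntegrableOn.mono_set (t := Set.Icc 1 T) ?_ Set.Ioc_subset_Icc_self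
    refine ContinuousOn.integrableOn_Icc (ContinuousOn.inv₀ continuousOn_id fun t ht => ?_)
    have := ht.1
    intro h'
    have h'' : t = 0 := h'
    linarith
  have e4 : ∫ t in Set.Ioc 1 T, (f t - 1) / t =
      (∫ t in Set.Ioc 1 T, f t / t) - Real.log T := by
    have e5 : ∫ t in Set.Ioc 1 T, t⁻¹ = Real.log T := by
      rw [← intervalIntegral.integral_of_le hT, integral_inv_of_pos one_pos hT0, div_one]
    rw [← e5, ← integral_sub (hi1.mono_set Set.Ioc_subset_Ioi_self) hi2]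
    refine setIntegral_congr_fun measurableSet_Ioc fun t ht => ?_
    ring
  have e6 : ∫ t in Set.Ioi (1 : ℝ), f t / t =
      (∫ t in Set.Ioc 1 T, f t / t) + ∫ t in Set.Ioi T, f t / t := by
    rw [← Set.Ioc_union_Ioi_eq_Ioi hT]
    refine setIntegral_union ?_ measurableSet_Ioi (hi1.mono_set Set.Ioc_subset_Ioi_self)
      (hi1.mono_set (Set.Ioi_subset_Ioi hT))
    rw [Set.disjoint_left]
    intro t ht ht'
    exact absurd ht.2 (not_le.2 ht')
  unfold Lg
  rw [e1, e2, e3, e4, e6]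
  ring

/-- the derivative -/
theorem sl_ftc (h : Sl T A f f') (x : ℝ) (hx : 1 ≤ x) :
    IntegrableOn f' (Set.Ioc 1 x) ∧ ∫ t in Set.Ioc 1 x, f' t = f x - f 1 := by
  have hc : ContinuousOn f' (Set.uIcc 1 x) := by
    rw [Set.uIcc_of_le hx]
    exact h.con.mono fun t ht => lt_of_lt_of_le one_pos ht.1
  have hi : IntervalIntegrable f' volume 1 x := hc.intervalIntegrable
  refine ⟨(intervalIntegrable_iff_integrableOn_Ioc_of_le hx).1 hi, ?_⟩
  rw [← intervalIntegral.integral_of_le hx]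
  refine intervalIntegral.integral_eq_sub_of_hasDerivAt (fun t ht => ?_) hi
  rw [Set.uIcc_of_le hx] at ht
  exact h.der t (lt_of_lt_of_le one_pos ht.1)

end Sl

end Pool.Agent.H20.HH
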