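import Pool.Agent.H11.HH.GLH
import Pool.Agent.H46.HH.NRM
import Pool.Agent.H20.HH.NSA

/-!
# MP_347b49_nt: module NSM (harmonic sums)
-/

set_option autoImplicit false

open NumberField Complex Filter Topology MeasureTheory
open scoped ContDiff nonZeroDivisors

namespace Pool.Agent.H20.HH

open Pool.Agent.H33.HH Pool.Agent.H28.RC Pool.Agent.H37.CV Pool.Agent.H11.HH

variable {K : Type} [Field K] [NumberField K]

theorem nm_nonneg (I : Ideal (𝓞 K)) : 0 ≤ nm I := Nat.cast_nonneg _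

theorem one_le_nm (I : Ideal (𝓞 K)) (h : I ≠ ⊥) : 1 ≤ nm I := by
  unfold nm
  have : Ideal.absNorm I ≠ 0 := fun h0 => h (Ideal.absNorm_eq_zero_iff.1 h0)
  exact_mod_cast Nat.one_le_iff_ne_zero.2 this

theorem finsum_eq (P x : ℝ) (g : Ideal (𝓞 K) → ℝ) :
    ∑ᶠ I ∈ {I : Ideal (𝓞 K) | I ≠ ⊥ ∧ Cp P I ∧ nm I ≤ x}, g I =
      ∑ I ∈ (fin_le K P x).toFinset, g I :=
  finsum_mem_eq_finite_toFinset_sum _ (fin_le K P x)

/-- the ideals of norm at most `x`, as a finite set -/
theorem fin_NI (x : ℝ) : {I : NI K | nm I.1 ≤ x}.Finite := by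
  refine Set.Finite.of_finite_image (f := fun I : NI K => I.1) ?_ Subtype.val_injective.injOn
  refine (Ideal.finite_setOfPred_absNorm_le (S := 𝓞 K) ⌊x⌋₊).subset ?_
  rintro _ ⟨I, h, rfl⟩
  exact Nat.le_floor h

theorem sum_lim (P : ℝ) (g : Ideal (𝓞 K) → ℝ) (hg : Summable fun I : NI K => |g I.1|) :
    Tendsto (fun x : ℝ => ∑ᶠ I ∈ {I : Ideal (𝓞 K) | I ≠ ⊥ ∧ Cp P I ∧ nm I ≤ x}, g I) atTop
      (𝓝 (sumC P g)) := by
  classical
  have hs : Summable fun I : NI K => if Cp P I.1 then g I.1 else 0 := by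
    refine Summable.of_norm_bounded hg fun I => ?_
    split_ifs
    · exact le_rfl
    · rw [norm_zero]
      exact abs_nonneg _
  have ht : Tendsto (fun x : ℝ => (fin_NI (K := K) x).toFinset) atTop atTop := by
    refine tendsto_atTop.2 fun u => ?_
    filter_upwards [eventually_ge_atTop (∑ I ∈ u, nm I.1)] with x hx
    intro I hI
    rw [Set.Finite.mem_toFinset]
    exact (Finset.single_le_sum (f := fun I : NI K => nm I.1) (fun J _ => nm_nonneg _) hI).trans hx
  have h1 : Tendsto (fun x : ℝ => ∑ I ∈ (fin_NI (K := K) x).toFinset,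
      if Cp P I.1 then g I.1 else 0) atTop (𝓝 (∑' I : NI K, if Cp P I.1 then g I.1 else 0)) :=
    hs.hasSum.comp ht
  have h2 : sumC P g = ∑' I : NI K, if Cp P I.1 then g I.1 else 0 := by
    unfold sumC
    refine tsum_congr fun I => ?_
    split_ifs <;> rfl
  rw [h2]
  refine h1.congr fun x => ?_
  rw [finsum_eq, ← Finset.sum_filter]
  refine Finset.sum_bij (fun I _ => I.1) ?_ ?_ ?_ ?_
  · intro I hI
    rw [Finset.mem_filter, Set.Finite.mem_toFinset] at hI
    rw [Set.Finite.mem_toFinset]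
    exact ⟨I.2, hI.2, hI.1⟩
  · intro I _ J _ hIJ
    exact Subtype.ext hIJ
  · intro I hI
    rw [Set.Finite.mem_toFinset] at hI
    refine ⟨⟨I, hI.1⟩, ?_, rfl⟩
    rw [Finset.mem_filter, Set.Finite.mem_toFinset]
    exact ⟨hI.2.2, hI.2.1⟩
  · intro I _
    rfl

theorem cn_le (h1 : T_CNT) (K : Type) [Field K] [NumberField K] [IQ K] (P : ℝ) :
    ∃ C : ℝ, 0 ≤ C ∧ ∀ t : ℝ, 1 ≤ t → |cn K P t| ≤ C * t := by
  obtain ⟨C, hC, h⟩ := h1 K P
  refine ⟨|rk K P| + C, by positivity, fun t ht => ?_⟩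
  have ht0 : 0 < t := by linarith
  have h2 : |cn K P t - rk K P * t| ≤ C * t ^ (3 / 4 : ℝ) := h t ht
  have h3 : t ^ (3 / 4 : ℝ) ≤ t := by
    calc t ^ (3 / 4 : ℝ) ≤ t ^ (1 : ℝ) := Real.rpow_le_rpow_of_exponent_le ht (by norm_num)
      _ = t := Real.rpow_one t
  have h4 : |cn K P t| ≤ |cn K P t - rk K P * t| + |rk K P * t| := by
    have := abs_add_le (cn K P t - rk K P * t) (rk K P * t)
    rwa [sub_add_cancel] at this
  rw [abs_mul, abs_of_pos ht0] at h4
  have h5 : C * t ^ (3 / 4 : ℝ) ≤ C * t := mul_le_mul_of_nonneg_left h3 hC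
  linarith

theorem Cp_zero (I : Ideal (𝓞 K)) : Cp 0 I := by
  intro p _
  have h := one_le_nm p.1 p.2.2
  have h' : np p = nm p.1 := rfl
  linarith

theorem sum_pow (h1 : T_CNT) (h2 : T_NS1) (K : Type) [Field K] [NumberField K] [IQ K] :
    Summable fun I : NI K => nm I.1 ^ (-(3 / 2) : ℝ) := by
  classical
  obtain ⟨C, hC, hc⟩ := cn_le h1 K 0
  refine summable_of_sum_le (c := 4 * C) (fun I => by
    have := nm_nonneg I.1
    positivity) fun u => ?_
  set x : ℝ := 1 + ∑ I ∈ u, nm I.1 with hx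
  have hx1 : 1 ≤ x := by
    have : 0 ≤ ∑ I ∈ u, nm I.1 := Finset.sum_nonneg fun I _ => nm_nonneg _
    linarith
  have hx0 : 0 < x := by linarith
  have hle : ∑ I ∈ u, nm I.1 ^ (-(3 / 2) : ℝ) ≤
      ∑ I ∈ (fin_le K 0 x).toFinset, nm I ^ (-(3 / 2) : ℝ) := by
    have e : ∑ I ∈ u, nm I.1 ^ (-(3 / 2) : ℝ) =
        ∑ J ∈ u.image (fun I : NI K => I.1), nm J ^ (-(3 / 2) : ℝ) := by
      rw [Finset.sum_image fun I _ J _ hIJ => Subtype.ext hIJ]
    rw [e]
    refine Finset.sum_le_sum_of_subset_of_nonneg ?_ fun J _ _ => by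
      have := nm_nonneg J
      positivity
    intro J hJ
    rw [Finset.mem_image] at hJ
    obtain ⟨I, hI, rfl⟩ := hJ
    rw [Set.Finite.mem_toFinset]
    refine ⟨I.2, Cp_zero _, ?_⟩
    have := Finset.single_le_sum (f := fun I : NI K => nm I.1) (fun J _ => nm_nonneg _) hI
    linarith
  refine hle.trans ?_
  rw [← finsum_eq]
  have hns := h2 K 0 (fun t => t ^ (-(3 / 2) : ℝ)) (fun t => -(3 / 2) * t ^ (-(5 / 2) : ℝ))
    (fun t ht => by
      have := Real.hasDerivAt_rpow_const (x := t) (p := (-(3 / 2) : ℝ)) (Or.inl ht.ne')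
      have e : (-(3 / 2) : ℝ) - 1 = -(5 / 2) := by norm_num
      rw [e] at this
      exact this)
    (by
      refine ContinuousOn.mul continuousOn_const ?_
      exact ContinuousOn.rpow_const continuousOn_id fun t ht => Or.inl (ne_of_gt ht)) x hx1
  rw [hns]
  have hb : IntegrableOn (fun t : ℝ => 3 / 2 * C * t ^ (-(3 / 2) : ℝ)) (Set.Ioi 1) :=
    (integrableOn_Ioi_rpow_of_lt (by norm_num) one_pos).const_mul _
  have ha : ∀ᵐ t ∂(volume.restrict (Set.Ioc 1 x)),
      ‖-(3 / 2) * t ^ (-(5 / 2) : ℝ) * cn K 0 t‖ ≤ 3 / 2 * C * t ^ (-(3 / 2) : ℝ) := by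
    refine (ae_restrict_iff' measurableSet_Ioc).2 (Eventually.of_forall fun t ht => ?_)
    have ht0 : 0 < t := by linarith [ht.1]
    have e1 : t ^ (-(3 / 2) : ℝ) = t ^ (-(5 / 2) : ℝ) * t := by
      nth_rewrite 3 [← Real.rpow_one t]
      rw [← Real.rpow_add ht0]
      norm_num
    rw [norm_mul, norm_mul, Real.norm_eq_abs, Real.norm_eq_abs, Real.norm_eq_abs, abs_neg,
      abs_of_pos (by positivity : (0 : ℝ) < 3 / 2), abs_of_pos (by positivity), e1]
    have h3 := hc t ht.1.le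
    calc 3 / 2 * t ^ (-(5 / 2) : ℝ) * |cn K 0 t| ≤ 3 / 2 * t ^ (-(5 / 2) : ℝ) * (C * t) :=
          mul_le_mul_of_nonneg_left h3 (by positivity)
      _ = 3 / 2 * C * (t ^ (-(5 / 2) : ℝ) * t) := by ring
  have hI : |∫ t in Set.Ioc 1 x, -(3 / 2) * t ^ (-(5 / 2) : ℝ) * cn K 0 t| ≤ 3 * C := by
    calc |∫ t in Set.Ioc 1 x, -(3 / 2) * t ^ (-(5 / 2) : ℝ) * cn K 0 t| ≤
        ∫ t in Set.Ioc 1 x, 3 / 2 * C * t ^ (-(3 / 2) : ℝ) := by
          rw [← Real.norm_eq_abs]
          exact norm_integral_le_of_norm_le (hb.mono_set Set.Ioc_subset_Ioi_self) ha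
      _ ≤ ∫ t in Set.Ioi (1 : ℝ), 3 / 2 * C * t ^ (-(3 / 2) : ℝ) := by
          refine setIntegral_mono_set hb ?_ Set.Ioc_subset_Ioi_self.eventuallyLE
          refine (ae_restrict_iff' measurableSet_Ioi).2 (Eventually.of_forall fun t ht => ?_)
          have : 0 < t := lt_trans one_pos ht
          simp only [Pi.zero_apply]
          positivity
      _ = 3 * C := by
          rw [integral_const_mul, integral_Ioi_rpow_of_lt (by norm_num) one_pos]
          norm_num
          ring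
  have hJ : x ^ (-(3 / 2) : ℝ) * cn K 0 x ≤ C := by
    calc x ^ (-(3 / 2) : ℝ) * cn K 0 x ≤ x ^ (-(3 / 2) : ℝ) * (C * x) :=
          mul_le_mul_of_nonneg_left ((le_abs_self _).trans (hc x hx1)) (by positivity)
      _ = C * x ^ (-(1 / 2) : ℝ) := by
          have : x ^ (-(1 / 2) : ℝ) = x ^ (-(3 / 2) : ℝ) * x := by
            nth_rewrite 3 [← Real.rpow_one x]
            rw [← Real.rpow_add hx0]
            norm_num
          rw [this]
          ring
      _ ≤ C * 1 := by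
          refine mul_le_mul_of_nonneg_left ?_ hC
          exact Real.rpow_le_one_of_one_le_of_nonpos hx1 (by norm_num)
      _ = C := mul_one C
  have := (abs_le.1 hI).1
  linarith

theorem rk_pos (K : Type) [Field K] [NumberField K] [IQ K] (P : ℝ) : 0 < rk K P := by
  have hw : 0 < wu K := (Pool.Agent.H46.HH.pf_NRM K).2.1
  have hh : 0 < hc K := by
    unfold hc
    have : 0 < classNumber K := Fintype.card_pos
    exact_mod_cast this
  have hsd : 0 < sd K := by
    unfold sd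
    refine Real.sqrt_pos.2 (abs_pos.2 ?_)
    exact_mod_cast NumberField.discr_ne_zero K
  unfold rk rh
  refine mul_pos (by positivity) (Finset.prod_pos fun p _ => ?_)
  have h2 : 2 ≤ np p := by
    have h3 : Ideal.absNorm p.1 ≠ 0 := fun h0 => p.2.2 (Ideal.absNorm_eq_zero_iff.1 h0)
    have h4 : Ideal.absNorm p.1 ≠ 1 := fun h0 => p.2.1.ne_top (Ideal.absNorm_eq_one_iff.1 h0)
    have h5 : 2 ≤ Ideal.absNorm p.1 := by omega
    unfold np nm
    exact_mod_cast h5
  have : 1 / np p < 1 := by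
    rw [div_lt_one (by linarith)]
    linarith
  linarith

theorem int5 (S : Set ℝ) (a b c d e : ℝ → ℝ) (r s : ℝ) (ha : IntegrableOn a S)
    (hb : IntegrableOn b S) (hc : IntegrableOn c S) (hd : IntegrableOn d S)
    (he : IntegrableOn e S) :
    ∫ t in S, (a t - b t - c t + r * d t - s * e t) =
      (∫ t in S, a t) - (∫ t in S, b t) - (∫ t in S, c t) + r * (∫ t in S, d t) -
        s * ∫ t in S, e t := by
  have h1 : IntegrableOn (fun t => a t - b t) S := ha.sub hb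
  have h2 : IntegrableOn (fun t => a t - b t - c t) S := h1.sub hc
  have h3 : IntegrableOn (fun t => r * d t) S := hd.const_mul r
  have h4 : IntegrableOn (fun t => s * e t) S := he.const_mul s
  have h5 : IntegrableOn (fun t => a t - b t - c t + r * d t) S := h2.add h3
  rw [integral_sub h5 h4, integral_add h2 h3, integral_sub h1 hc, integral_sub ha hb,
    integral_const_mul, integral_const_mul]

/-- the partial sums -/
theorem psum (h2 : T_NS1) (K : Type) [Field K] [NumberField K] [IQ K] (P C : ℝ) (hC : 0 ≤ C)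
    (hb : ∀ t, 1 ≤ t → |cn K P t - rk K P * t| ≤ C * t ^ (3 / 4 : ℝ))
    (f f' : ℝ → ℝ) (T A : ℝ) (hT : 1 ≤ T) (hA : 0 ≤ A) (h : Sl T A f f') (x : ℝ) (hx : 1 ≤ x) :
    ∑ᶠ I ∈ {I : Ideal (𝓞 K) | I ≠ ⊥ ∧ Cp P I ∧ nm I ≤ x}, f (nm I) / nm I =
      f x / x * cn K P x - ((∫ t in Set.Ioc 1 x, f' t * (cn K P t - rk K P * t) / t) -
        (∫ t in Set.Ioc 1 x, (f t - 1) * (cn K P t - rk K P * t) / t ^ 2) -
        (∫ t in Set.Ioc 1 x, (cn K P t - rk K P * t) / t ^ 2) +
        rk K P * (f x - f 1) - rk K P * ∫ t in Set.Ioc 1 x, f t / t) := by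
  have hT0 : 0 < T := by linarith
  have hsub : Set.Ioc 1 x ⊆ Set.Ioi 1 := Set.Ioc_subset_Ioi_self
  have hE : Measurable fun t => cn K P t - rk K P * t :=
    (cn_mono K P).measurable.sub (measurable_const.mul measurable_id)
  obtain ⟨⟨i1, -⟩, i2, -⟩ := sl_err h hT hA _ hE C hC hb
  have i3 : IntegrableOn (fun t => (cn K P t - rk K P * t) / t ^ 2) (Set.Ioi 1) := by
    refine Integrable.mono' ((integrableOn_Ioi_rpow_of_lt (a := (-(5 / 4) : ℝ)) (by norm_num)
      one_pos).const_mul C) (hE.div (measurable_id.pow_const 2)).aestronglyMeasurable ?_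
    refine (ae_restrict_iff' measurableSet_Ioi).2 (Eventually.of_forall fun t ht => ?_)
    have ht1 : (1 : ℝ) < t := ht
    have ht0 : 0 < t := by linarith
    rw [Real.norm_eq_abs, abs_div, abs_of_pos (by positivity : 0 < t ^ 2),
      div_le_iff₀ (by positivity)]
    refine (hb t ht1.le).trans (le_of_eq ?_)
    rw [mul_assoc, ← Real.rpow_natCast t 2, ← Real.rpow_add ht0]
    norm_num
  have i4 := sl_int h hT0 hA 1 one_pos
  obtain ⟨i5, e5⟩ := sl_ftc h x hx
  have hns := h2 K P (fun t => f t / t) (fun t => (f' t * t - f t * 1) / t ^ 2)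
    (fun t ht => (h.der t ht).div (hasDerivAt_id t) ht.ne')
    (by
      refine ContinuousOn.div ?_ (continuousOn_pow 2) fun t ht => pow_ne_zero 2 (ne_of_gt ht)
      exact (h.con.mul continuousOn_id).sub ((sl_cont h).mul continuousOn_const)) x hx
  rw [hns]
  congr 1
  rw [← e5, ← int5 (Set.Ioc 1 x) _ _ _ _ _ _ _ (i2.mono_set hsub) (i1.mono_set hsub)
    (i3.mono_set hsub) i5 (i4.mono_set hsub)]
  refine setIntegral_congr_fun measurableSet_Ioc fun t ht => ?_
  have ht0 : 0 < t := lt_trans one_pos ht.1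
  show _ = _
  field_simp
  ring

theorem ioc_lim (φ : ℝ → ℝ) (hφ : IntegrableOn φ (Set.Ioi 1)) :
    Tendsto (fun x => ∫ t in Set.Ioc 1 x, φ t) atTop (𝓝 (∫ t in Set.Ioi 1, φ t)) := by
  refine (intervalIntegral_tendsto_integral_Ioi 1 hφ tendsto_id).congr' ?_
  filter_upwards [eventually_ge_atTop 1] with x hx
  exact intervalIntegral.integral_of_le hx

theorem pf_NSM (h1 : T_CNT) (h2 : T_NS1) : T_NSM := by
  intro K _ _ _ P
  obtain ⟨C, hC, hcn⟩ := h1 K P
  obtain ⟨C1, hC1, hcn1⟩ := cn_le h1 K P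
  have hb : ∀ t, 1 ≤ t → |cn K P t - rk K P * t| ≤ C * t ^ (3 / 4 : ℝ) := hcn
  have hrk := rk_pos K P
  set I0 : ℝ := ∫ t in Set.Ioi (1 : ℝ), (cn K P t - rk K P * t) / t ^ 2 with hI0
  refine ⟨1 + (rk K P)⁻¹ * I0, 3 * rk K P + 48 * C, by positivity,
    fun f f' T A hT hA h => ?_⟩
  have hT0 : 0 < T := by linarith
  have hsum : Summable fun I : NI K => |f (nm I.1) / nm I.1| := by
    refine Summable.of_nonneg_of_le (fun _ => abs_nonneg _) (fun I => ?_)
      ((sum_pow h1 h2 K).mul_left (3 * A * T ^ (1 / 2 : ℝ)))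
    have hn : 0 < nm I.1 := lt_of_lt_of_le one_pos (one_le_nm I.1 I.2)
    rw [abs_div, abs_of_pos hn, div_le_iff₀ hn]
    refine (sl_size h hT0 hA _ hn).trans (le_of_eq ?_)
    have : nm I.1 ^ (-(1 / 2) : ℝ) = nm I.1 ^ (-(3 / 2) : ℝ) * nm I.1 := by
      nth_rewrite 3 [← Real.rpow_one (nm I.1)]
      rw [← Real.rpow_add hn]
      norm_num
    rw [this]
    ring
  refine ⟨hsum, ?_⟩
  have hE : Measurable fun t => cn K P t - rk K P * t :=
    (cn_mono K P).measurable.sub (measurable_const.mul measurable_id)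
  obtain ⟨⟨i1, b1⟩, i2, b2⟩ := sl_err h hT hA _ hE C hC hb
  have i3 : IntegrableOn (fun t => (cn K P t - rk K P * t) / t ^ 2) (Set.Ioi 1) := by
    refine Integrable.mono' ((integrableOn_Ioi_rpow_of_lt (a := (-(5 / 4) : ℝ)) (by norm_num)
      one_pos).const_mul C) (hE.div (measurable_id.pow_const 2)).aestronglyMeasurable ?_
    refine (ae_restrict_iff' measurableSet_Ioi).2 (Eventually.of_forall fun t ht => ?_)
    have ht1 : (1 : ℝ) < t := ht
    have ht0 : 0 < t := by linarith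
    rw [Real.norm_eq_abs, abs_div, abs_of_pos (by positivity : 0 < t ^ 2),
      div_le_iff₀ (by positivity)]
    refine (hb t ht1.le).trans (le_of_eq ?_)
    rw [mul_assoc, ← Real.rpow_natCast t 2, ← Real.rpow_add ht0]
    norm_num
  have i4 := sl_int h hT0 hA 1 one_pos
  have hpow : Tendsto (fun x : ℝ => x ^ (-(1 / 2) : ℝ)) atTop (𝓝 0) :=
    tendsto_rpow_neg_atTop (by norm_num)
  have hf0 : Tendsto f atTop (𝓝 0) := by
    refine squeeze_zero_norm' (a := fun x => 3 * A * T ^ (1 / 2 : ℝ) * x ^ (-(1 / 2) : ℝ)) ?_ ?_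
    · filter_upwards [eventually_gt_atTop 0] with x hx
      refine (sl_size h hT0 hA x hx).trans (le_of_eq (by ring))
    · simpa using hpow.const_mul (3 * A * T ^ (1 / 2 : ℝ))
  have hfc : Tendsto (fun x => f x / x * cn K P x) atTop (𝓝 0) := by
    refine squeeze_zero_norm' (a := fun x => C1 * |f x|) ?_ ?_
    · filter_upwards [eventually_ge_atTop 1] with x hx
      have hx0 : 0 < x := by linarith
      rw [norm_mul, Real.norm_eq_abs, Real.norm_eq_abs, abs_div, abs_of_pos hx0]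
      calc |f x| / x * |cn K P x| ≤ |f x| / x * (C1 * x) :=
            mul_le_mul_of_nonneg_left (hcn1 x hx) (by positivity)
        _ = C1 * |f x| := by field_simp
    · simpa using hf0.abs.const_mul C1
  have hlim : sumC (K := K) P (fun n => f (nm n) / nm n) =
      0 - ((∫ t in Set.Ioi 1, f' t * (cn K P t - rk K P * t) / t) -
        (∫ t in Set.Ioi 1, (f t - 1) * (cn K P t - rk K P * t) / t ^ 2) - I0 +
        rk K P * (0 - f 1) - rk K P * ∫ t in Set.Ioi 1, f t / t) := by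
    refine tendsto_nhds_unique (sum_lim P (fun n => f (nm n) / nm n) hsum) ?_
    have hL := hfc.sub (((((ioc_lim _ i2).sub (ioc_lim _ i1)).sub (ioc_lim _ i3)).add
      ((hf0.sub_const (f 1)).const_mul (rk K P))).sub ((ioc_lim _ i4).const_mul (rk K P)))
    refine hL.congr' ?_
    filter_upwards [eventually_ge_atTop 1] with x hx
    exact (psum h2 K P C hC hb f f' T A hT hA h x hx).symm
  have hLg := sl_Lg h hT hA
  obtain ⟨-, b3⟩ := sl_int0 h hT0 hA 1 zero_le_one hT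
  have hf1 := (h.n1 1 one_pos hT).1
  have e : sumC (K := K) P (fun n => f (nm n) / nm n) -
      rk K P * (Real.log T + (1 + (rk K P)⁻¹ * I0) + Lg (fun u => f (T * u))) =
      rk K P * (f 1 - 1) + -(rk K P * ∫ t in Set.Ioc (0 : ℝ) 1, (f t - 1) / t) +
        (∫ t in Set.Ioi 1, (f t - 1) * (cn K P t - rk K P * t) / t ^ 2) +
        -∫ t in Set.Ioi 1, f' t * (cn K P t - rk K P * t) / t := by
    rw [hlim, hLg]
    field_simp
    ring
  rw [e]
  have hh : (1 / T) ^ (1 / 2 : ℝ) ≤ T ^ (-(1 / 4) : ℝ) := by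
    rw [one_div, ← Real.rpow_neg_one, ← Real.rpow_mul hT0.le]
    exact Real.rpow_le_rpow_of_exponent_le hT (by norm_num)
  have hP : 0 ≤ T ^ (-(1 / 4) : ℝ) := by positivity
  have c1 : |rk K P * (f 1 - 1)| ≤ rk K P * (A * T ^ (-(1 / 4) : ℝ)) := by
    rw [abs_mul, abs_of_pos hrk]
    exact mul_le_mul_of_nonneg_left (hf1.trans (mul_le_mul_of_nonneg_left hh hA)) hrk.le
  have c2 : |-(rk K P * ∫ t in Set.Ioc (0 : ℝ) 1, (f t - 1) / t)| ≤
      rk K P * (2 * A * T ^ (-(1 / 4) : ℝ)) := by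
    rw [abs_neg, abs_mul, abs_of_pos hrk]
    exact mul_le_mul_of_nonneg_left (b3.trans (mul_le_mul_of_nonneg_left hh (by positivity)))
      hrk.le
  refine (abs_add_le _ _).trans ?_
  rw [abs_neg]
  have d1 := abs_add_le (rk K P * (f 1 - 1) + -(rk K P * ∫ t in Set.Ioc (0 : ℝ) 1, (f t - 1) / t))
    (∫ t in Set.Ioi 1, (f t - 1) * (cn K P t - rk K P * t) / t ^ 2)
  have d2 := abs_add_le (rk K P * (f 1 - 1)) (-(rk K P * ∫ t in Set.Ioc (0 : ℝ) 1, (f t - 1) / t))
  have : (3 * rk K P + 48 * C) * A * T ^ (-(1 / 4) : ℝ) =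
      rk K P * (A * T ^ (-(1 / 4) : ℝ)) + rk K P * (2 * A * T ^ (-(1 / 4) : ℝ)) +
        8 * (3 * A * C) * T ^ (-(1 / 4) : ℝ) + 8 * (3 * A * C) * T ^ (-(1 / 4) : ℝ) := by
    ring
  rw [this]
  linarith

end Pool.Agent.H20.HH
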